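import Pool.Agent.Y162.GQ.Kill

/-!
# The Golod-Shafarevich bound for `k`-step nilpotency is attained for every `n` and all large `k`

For every `n ≥ 1` there is `N` such that for all `k ≥ N` and all fields `K` there is a quadratic
`K`-algebra with `n` generators and `⌈φ_k n²⌉` linearly independent relations in which all
products of `k` generators vanish; moreover this holds for generic relations.
-/

set_option autoImplicit false

namespace Pool.Agent.Results.MP_05aa0e_al.AllLargeIndices

open Pool.Agent.Y162.GQ MvPolynomial

universe u

/-- Let `n ≥ 1`. There are `N` and `C` such that for all `k ≥ N`, with `d = ⌈φ_k n²⌉`: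
1. over every field there are `d` linearly independent quadratic relations in `n` generators
such that all products of `k` generators vanish in the quadratic algebra;
2. there is a polynomial `P` with integral coefficients in the `d n²` coefficients of `d` relations,
which does not vanish modulo any prime, such that over every field all products of `k` generators
vanish for all relations with `P ≠ 0`, and over every finite field with `q` elements this fails for
a proportion at most `C / q` of all `d`-tuples of relations. -/
theorem result (n : ℕ) (hn : 1 ≤ n) :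
    ∃ N C : ℕ, ∀ k : ℕ, N ≤ k →
      (∀ (K : Type u) [Field K], ∃ r : Fin (gsNumber n k) → Fin n → Fin n → K,
        LinearIndependent K r ∧ Kills k r) ∧
      ∃ P : MvPolynomial (Fin (gsNumber n k) × Fin n × Fin n) ℤ,
        (∀ p : ℕ, p.Prime → P.map (Int.castRingHom (ZMod p)) ≠ 0) ∧
        (∀ (K : Type u) [Field K] (c : Fin (gsNumber n k) × Fin n × Fin n → K),
          aeval c P ≠ 0 → Kills k (fun l i j => c (l, i, j))) ∧
        (∀ (K : Type u) [Field K] [Finite K],
          Nat.card {c : Fin (gsNumber n k) × Fin n × Fin n → K //
              ¬ Kills k (fun l i j => c (l, i, j))} * Nat.card K ≤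
            C * Nat.card (Fin (gsNumber n k) × Fin n × Fin n → K)) := by
  classical
  choose N C P hP1 hP2 hP3 hP4 using nilmain.{u} n
  let N' : ℕ := (Finset.range (n ^ 2 + 1)).sup fun d => if h : n ^ 2 < 4 * d then N d h else 0
  let C' : ℕ := (Finset.range (n ^ 2 + 1)).sup fun d => if h : n ^ 2 < 4 * d then C d h else 0
  refine ⟨max N' 2, C', fun k hk => ?_⟩
  obtain ⟨h1, h2⟩ := gsNumber_bounds n k hn ((le_max_right _ _).trans hk)
  have hN : N _ h1 ≤ k := by
    refine le_trans ?_ ((le_max_left _ _).trans hk)
    have := Finset.le_sup (f := fun d => if h : n ^ 2 < 4 * d then N d h else 0)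
      (Finset.mem_range.2 (Nat.lt_succ_of_le h2))
    simpa only [dif_pos h1] using this
  have hC : C _ h1 ≤ C' := by
    have := Finset.le_sup (f := fun d => if h : n ^ 2 < 4 * d then C d h else 0)
      (Finset.mem_range.2 (Nat.lt_succ_of_le h2))
    simpa only [dif_pos h1] using this
  refine ⟨?_, P _ h1, hP1 _ h1, ?_, ?_⟩
  · intro K _
    obtain ⟨R, hR1, hR2⟩ := hP3 _ h1 K
    exact ⟨R, hR1 h2, kills_of_nil _ _ R hR2 hN⟩
  · intro K _ c hc
    exact kills_of_nil _ _ _ (hP2 _ h1 K c hc) hN
  · intro K _ _
    have h3 : ∀ c : Fin (gsNumber n k) × Fin n × Fin n → K,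
        ¬ Kills k (fun l i j => c (l, i, j)) → aeval c (P _ h1) = 0 := by
      intro c hc
      by_contra hc'
      exact hc (kills_of_nil _ _ _ (hP2 _ h1 K c hc') hN)
    calc _ ≤ Nat.card {c : Fin (gsNumber n k) × Fin n × Fin n → K //
          aeval c (P _ h1) = 0} * Nat.card K :=
        Nat.mul_le_mul_right _ (Nat.card_le_card_of_injective (Subtype.map id h3)
          (Subtype.map_injective h3 Function.injective_id))
      _ ≤ _ := (hP4 _ h1 K).trans (Nat.mul_le_mul_right _ hC)

end Pool.Agent.Results.MP_05aa0e_al.AllLargeIndices
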